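import Pool.Agent.Y716.C.Defs

/-!
# The number of exceptional systems over the integers: classes and averaging
-/

namespace Pool.Agent.Y363.C7

open Pool.Agent.Y716.Q Pool.Agent.Y716.C

/-! ### Perturbation of a matrix with bounded inverse -/

theorem inv_shift {s : ℕ} (hs : 1 ≤ s) {γ κ : ℝ} (hγ : 0 < γ) (hκ : (s : ℝ) ^ 2 * κ ≤ γ)
    (Li L L' : Matrix (Fin s) (Fin s) ℝ) (h1 : Li * L = 1) (h2 : ∀ j j', |Li j j'| ≤ 1 / (2 * γ))
    (h3 : ∀ j j', |L j j' - L' j j'| ≤ κ) :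
    ∃ Li' : Matrix (Fin s) (Fin s) ℝ, Li' * L' = 1 ∧ ∀ j j', |Li' j j'| ≤ 1 / γ := by
  have hs0 : (0 : ℝ) < s := by exact_mod_cast hs
  obtain ⟨X, hX⟩ : ∃ X : Matrix (Fin s) (Fin s) ℝ, X = Li * (L - L') := ⟨_, rfl⟩
  have hX1 : Li * L' = 1 - X := by
    rw [hX, Matrix.mul_sub, h1]
    abel
  have hXb : ∀ j j', |X j j'| ≤ 1 / (2 * s) := by
    intro j j'
    rw [hX, Matrix.mul_apply]
    refine (Finset.abs_sum_le_sum_abs _ _).trans ?_
    have h4 : ∀ k ∈ (Finset.univ : Finset (Fin s)), |Li j k * (L - L') k j'| ≤ 1 / (2 * γ) * κ := by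
      intro k _
      rw [abs_mul, Matrix.sub_apply]
      exact mul_le_mul (h2 j k) (h3 k j') (abs_nonneg _) (by positivity)
    refine (Finset.sum_le_sum h4).trans ?_
    rw [Finset.sum_const, Finset.card_univ, Fintype.card_fin, nsmul_eq_mul]
    rw [le_div_iff₀ (by positivity)]
    have h5 : (s : ℝ) * (1 / (2 * γ) * κ) * (2 * s) = (s : ℝ) ^ 2 * κ / γ := by
      field_simp
    rw [h5, div_le_one hγ]
    exact hκ
  have hdet : (1 - X).det ≠ 0 := by
    apply det_ne_zero_of_sum_row_lt_diag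
    intro k
    have h4 : ∀ j ∈ Finset.univ.erase k, ‖(1 - X) k j‖ ≤ 1 / (2 * s) := by
      intro j hj
      have hjk : k ≠ j := (Finset.ne_of_mem_erase hj).symm
      rw [Matrix.sub_apply, Matrix.one_apply_ne hjk, zero_sub, norm_neg, Real.norm_eq_abs]
      exact hXb k j
    have h5 := Finset.sum_le_sum h4
    rw [Finset.sum_const, Finset.card_erase_of_mem (Finset.mem_univ k), Finset.card_univ,
      Fintype.card_fin, nsmul_eq_mul, Nat.cast_sub hs] at h5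
    have h6 : 1 - 1 / (2 * s) ≤ ‖(1 - X) k k‖ := by
      rw [Matrix.sub_apply, Matrix.one_apply_eq, Real.norm_eq_abs]
      have := hXb k k
      have h7 := abs_sub_abs_le_abs_sub 1 (X k k)
      rw [abs_one] at h7
      linarith
    refine lt_of_le_of_lt h5 (lt_of_lt_of_le ?_ h6)
    push_cast
    have h8 : ((s : ℝ) - 1) * (1 / (2 * s)) = 1 / 2 - 1 / (2 * s) := by
      field_simp
    rw [h8]
    linarith
  have hu : IsUnit (1 - X).det := isUnit_iff_ne_zero.mpr hdet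
  obtain ⟨Y, hY⟩ : ∃ Y : Matrix (Fin s) (Fin s) ℝ, Y = (1 - X)⁻¹ * Li := ⟨_, rfl⟩
  have hYX : Y = Li + X * Y := by
    have h4 : (1 - X) * Y = Li := by
      rw [hY, ← Matrix.mul_assoc, Matrix.mul_nonsing_inv _ hu, Matrix.one_mul]
    rw [Matrix.sub_mul, Matrix.one_mul] at h4
    rw [← h4]
    abel
  refine ⟨Y, ?_, ?_⟩
  · rw [hY, Matrix.mul_assoc, hX1, Matrix.nonsing_inv_mul _ hu]
  · -- the largest entry
    have : Nonempty (Fin s) := ⟨⟨0, hs⟩⟩
    obtain ⟨q, hq⟩ := Finite.exists_max (fun q : Fin s × Fin s => |Y q.1 q.2|)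
    have hm : |Y q.1 q.2| ≤ 1 / γ := by
      have h4 : |Y q.1 q.2| ≤ 1 / (2 * γ) + 1 / 2 * |Y q.1 q.2| := by
        have h5 : Y q.1 q.2 = Li q.1 q.2 + ∑ k, X q.1 k * Y k q.2 := by
          conv_lhs => rw [hYX]
          rw [Matrix.add_apply, Matrix.mul_apply]
        have h6 : |∑ k, X q.1 k * Y k q.2| ≤ 1 / 2 * |Y q.1 q.2| := by
          refine (Finset.abs_sum_le_sum_abs _ _).trans ?_
          have h7 : ∀ k ∈ (Finset.univ : Finset (Fin s)), |X q.1 k * Y k q.2| ≤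
              1 / (2 * s) * |Y q.1 q.2| := by
            intro k _
            rw [abs_mul]
            exact mul_le_mul (hXb _ _) (hq (k, q.2)) (abs_nonneg _) (by positivity)
          refine (Finset.sum_le_sum h7).trans ?_
          rw [Finset.sum_const, Finset.card_univ, Fintype.card_fin, nsmul_eq_mul]
          apply le_of_eq
          field_simp
        calc |Y q.1 q.2| = |Li q.1 q.2 + ∑ k, X q.1 k * Y k q.2| := by rw [← h5]
          _ ≤ |Li q.1 q.2| + |∑ k, X q.1 k * Y k q.2| := abs_add_le _ _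
          _ ≤ _ := add_le_add (h2 _ _) h6
      have h5 : 1 / γ = 2 * (1 / (2 * γ)) := by field_simp
      rw [h5]
      linarith
    intro j j'
    exact (hq (j, j')).trans hm

variable {ι : Type*} [Fintype ι] {s : ℕ}

/-- non-degenerate local data -/
def GoodDS (w : ℕ) (γ H : ℝ) (Q N : ℕ) (c : ι → ℤ) (ζ : ι → ℝ) (δ : ℝ)
    (f : Fin s → MvPolynomial ι ℤ) : Prop :=
  ∃ (S J : ℕ) (xc : ι → ℤ) (ξ : ι → ℝ) (a : Fin s → ι) (Li : Matrix (Fin s) (Fin s) ℝ),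
    PDataS w f S J xc ∧ S * J = Q ∧ (N : ℤ) ∣ S ∧
    (∀ i, (N : ℤ) ∣ xc i - c i) ∧ (∃ r, ξ r = 1) ∧ (∀ i, |ξ i| ≤ 1) ∧ (∀ i, |ξ i - ζ i| ≤ δ) ∧
    (∀ j, MvPolynomial.aeval ξ (f j) = 0) ∧ Function.Injective a ∧
    Li * (Matrix.of fun j j' : Fin s =>
      (MvPolynomial.aeval ξ (MvPolynomial.pderiv (a j') (f j)) : ℝ) / H) = 1 ∧
    ∀ j j', |Li j j'| ≤ 1 / (2 * γ)

/-- the data of a class -/
def ClassDS (e : Fin s → ℕ) (w : ℕ) (γ η H : ℝ) (Q N : ℕ) (c : ι → ℤ) (ζ : ι → ℝ) (δ : ℝ)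
    (f : Fin s → MvPolynomial ι ℤ) : Prop :=
  ∃ (S J : ℕ) (xc : ι → ℤ) (ξ : ι → ℝ) (a : Fin s → ι) (Li : Matrix (Fin s) (Fin s) ℝ),
    PDataS w f S J xc ∧ S * J = Q ∧ (N : ℤ) ∣ S ∧
    (∀ i, (N : ℤ) ∣ xc i - c i) ∧ (∀ i, |ξ i - ζ i| ≤ δ) ∧ RDataS e H γ η f ξ a Li

theorem PDataS_shift {w S J : ℕ} {f : Fin s → MvPolynomial ι ℤ} {xc : ι → ℤ}
    (h : PDataS w f S J xc) (g : Fin s → MvPolynomial ι ℤ) : PDataS w (memS f S J g) S J xc := by
  refine ⟨h.hS, h.hJ, h.hJS, ?_, h.hPJ, ?_, h.hprim, h.hSW⟩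
  · intro j
    unfold memS mem'
    rw [map_add, map_mul, MvPolynomial.eval_C]
    exact dvd_add (h.hval j) (Dvd.intro _ rfl)
  · intro p hp hpw b
    obtain ⟨z, hz⟩ := h.hsurj p hp hpw b
    refine ⟨z, fun j => ?_⟩
    have h1 : ((p * J : ℕ) : ℤ) ∣ ((S * J : ℕ) : ℤ) := by
      have := h.hPJ p hp hpw
      have h2 : ((p * J : ℕ) : ℤ) ∣ ((S : ℕ) : ℤ) := Int.natCast_dvd_natCast.mpr this
      push_cast at h2 ⊢
      exact h2.mul_right _
    have h2 : ∑ i, jac (memS f S J g) xc j i * z i - J * b j =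
        (∑ i, jac f xc j i * z i - J * b j) +
          ((S * J : ℕ) : ℤ) * ∑ i, MvPolynomial.eval xc (MvPolynomial.pderiv i (g j)) * z i := by
      have h3 : ∀ i, jac (memS f S J g) xc j i = jac f xc j i +
          ((S * J : ℕ) : ℤ) * MvPolynomial.eval xc (MvPolynomial.pderiv i (g j)) := by
        intro i
        unfold jac memS mem'
        rw [map_add, map_add, Derivation.leibniz]
        simp
      simp_rw [h3, add_mul, Finset.sum_add_distrib, Finset.mul_sum, mul_assoc]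
      ring
    rw [h2]
    exact dvd_add (hz j) (h1.mul_right _)

theorem GoodDS.shift {e : Fin s → ℕ} {w : ℕ} {γ η H : ℝ} {Cf : Fin s → ℝ} {Q N : ℕ} {c : ι → ℤ}
    {ζ : ι → ℝ} {δ : ℝ} {f g : Fin s → MvPolynomial ι ℤ} (hs : 1 ≤ s) (hQ : 1 ≤ Q)
    (h : GoodDS w γ H Q N c ζ δ f) (hγ : 0 < γ) (hH : 0 < H) (hη : 0 ≤ η) (hη1 : η ≤ 1)
    (hCf : ∀ j, ∀ (f : MvPolynomial ι ℤ) (R : ℝ), IsF (e j + 1) R f →
      ∀ x : ι → ℝ, (∀ i, |x i| ≤ 1) → |MvPolynomial.aeval x f| ≤ Cf j * R)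
    (hηC : ∀ j, (s : ℝ) ^ 2 * (Cf j * (e j + 2) * η) ≤ γ) (hf : ∀ j, IsF (e j + 2) H (f j))
    (hg : ∀ j, IsF (e j + 2) (η * H / Q) (g j)) :
    ClassDS e w γ η H Q N c ζ δ (fun j => f j - MvPolynomial.C (Q : ℤ) * g j) := by
  obtain ⟨S, J, xc, ξ, a, Li, h1, h2, h3, h4, h5, h6, h7, h8, h9, h10, h11⟩ := h
  have hv' := PDataS_shift h1 (fun j => -(g j))
  have hmem : memS f S J (fun j => -(g j)) = fun j => f j - MvPolynomial.C (Q : ℤ) * g j := by
    funext j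
    exact mem'_neg (f j) (g j) h2
  rw [hmem] at hv'
  have hQr : (0:ℝ) < Q := by exact_mod_cast hQ
  have hQA : |((Q : ℤ) : ℝ)| * (η * H / Q) = η * H := by
    rw [Int.cast_natCast, abs_of_pos hQr]
    field_simp
  have hQg : ∀ j, IsF (e j + 2) (η * H) (MvPolynomial.C (Q : ℤ) * g j) := by
    intro j
    have := (hg j).C_mul (Q : ℤ)
    rwa [hQA] at this
  have hηH : η * H ≤ H := mul_le_of_le_one_left hH.le hη1
  have hs2 : (0:ℝ) < (s : ℝ) ^ 2 := by
    have : (0:ℝ) < s := by exact_mod_cast hs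
    positivity
  obtain ⟨Li', hL1, hL2⟩ := inv_shift hs (κ := γ / (s : ℝ) ^ 2) hγ
    (by rw [mul_div_cancel₀ _ hs2.ne']) Li _
    (Matrix.of fun j j' : Fin s => (MvPolynomial.aeval ξ (MvPolynomial.pderiv (a j')
      (f j - MvPolynomial.C (Q : ℤ) * g j)) : ℝ) / H) h10 h11 (by
    intro j j'
    rw [Matrix.of_apply, Matrix.of_apply, ← sub_div, ← map_sub, ← map_sub, sub_sub_cancel, abs_div,
      abs_of_pos hH, div_le_iff₀ hH]
    have h12 := hCf j _ _ ((hQg j).pderiv (a j')) ξ h6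
    refine h12.trans ?_
    have h13 : Cf j * (((e j + 1 : ℕ) : ℝ) + 1) * η ≤ γ / (s : ℝ) ^ 2 := by
      rw [le_div_iff₀ hs2]
      have := hηC j
      push_cast
      linarith
    have := mul_le_mul_of_nonneg_right h13 hH.le
    push_cast at this ⊢
    linarith)
  refine ⟨S, J, xc, ξ, a, Li', hv', h2, h3, h4, h7, ?_⟩
  refine ⟨fun j => ((hf j).sub (hQg j)).mono (by linarith), h6, h5, ?_, h9, hL1, hL2⟩
  intro j
  rw [map_sub, h8 j, zero_sub, abs_neg]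
  exact (hQg j).aeval_le_one h6

open scoped Classical in
/-- averaging over the classes -/
theorem avg_countS {e : Fin s → ℕ} {w : ℕ} {γ η H : ℝ} {Cf : Fin s → ℝ} {Q N : ℕ} {c : ι → ℤ}
    {ζ : ι → ℝ} {δ : ℝ} (hs : 1 ≤ s)
    (hQ : 1 ≤ Q) (hγ : 0 < γ) (hH : 0 < H) (hη : 0 ≤ η) (hη1 : η ≤ 1)
    (hCf : ∀ j, ∀ (f : MvPolynomial ι ℤ) (R : ℝ), IsF (e j + 1) R f →
      ∀ x : ι → ℝ, (∀ i, |x i| ≤ 1) → |MvPolynomial.aeval x f| ≤ Cf j * R)
    (hηC : ∀ j, (s : ℝ) ^ 2 * (Cf j * (e j + 2) * η) ≤ γ)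
    (q : (Fin s → MvPolynomial ι ℤ) → Prop) {ε : ℝ} (hε : 0 ≤ ε)
    (hcl : ∀ f, ClassDS e w γ η H Q N c ζ δ f →
      (((sysZ ι e (η * H / Q)).filter (fun g =>
        q (fun j => f j + MvPolynomial.C (Q : ℤ) * g j))).card : ℝ) ≤
        ε * (sysZ ι e (η * H / Q)).card) :
    (((sysZ ι e H).filter (fun f => GoodDS w γ H Q N c ζ δ f ∧ q f)).card : ℝ) ≤
      ε * (sysZ ι e (2 * H)).card := by
  obtain ⟨G', hG'⟩ : ∃ G', G' = sysZ ι e (η * H / Q) := ⟨_, rfl⟩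
  rw [← hG'] at hcl
  have hQr : (0:ℝ) < Q := by exact_mod_cast hQ
  have hA0 : 0 ≤ η * H / Q := by positivity
  have hG0 : (0:ℝ) < G'.card := by
    rw [hG', card_sysZ]
    exact_mod_cast Finset.prod_pos fun j _ => card_forms_pos (ι := ι) (e j + 2) hA0
  have h1 : ((sysZ ι e H).filter (fun f => GoodDS w γ H Q N c ζ δ f ∧ q f)).card *
      G'.card ≤
      ∑ f ∈ (sysZ ι e (2 * H)).filter (fun f => ClassDS e w γ η H Q N c ζ δ f),
        (G'.filter (fun g => q (fun j => f j + MvPolynomial.C (Q : ℤ) * g j))).card := by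
    rw [← Finset.card_product, ← Finset.card_sigma]
    apply Finset.card_le_card_of_injOn
      (fun r => (⟨fun j => r.1 j - MvPolynomial.C (Q : ℤ) * r.2 j, r.2⟩ :
        (_ : Fin s → MvPolynomial ι ℤ) × (Fin s → MvPolynomial ι ℤ)))
    · rintro ⟨f, g⟩ hr
      simp only [Finset.coe_product, Set.mem_prod, Finset.mem_coe, Finset.mem_filter] at hr
      obtain ⟨⟨h1, h2, h3⟩, h4⟩ := hr
      simp only [Finset.mem_coe, Finset.mem_sigma, Finset.mem_filter]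
      have hg : ∀ j, IsF (e j + 2) (η * H / Q) (g j) := by rw [hG'] at h4; exact mem_sysZ.mp h4
      have hcd := h2.shift hs hQ hγ hH hη hη1 hCf hηC (mem_sysZ.mp h1) hg
      refine ⟨⟨mem_sysZ.mpr ?_, hcd⟩, h4, ?_⟩
      · obtain ⟨S, J, xc, ξ, a, Li, _, _, _, _, _, h⟩ := hcd
        exact h.hform
      · have : (fun j => f j - MvPolynomial.C (Q : ℤ) * g j + MvPolynomial.C (Q : ℤ) * g j) = f := by
          funext j
          ring
        rw [this]
        exact h3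
    · rintro ⟨f, g⟩ _ ⟨f', g'⟩ _ heq
      simp only [Sigma.mk.injEq] at heq
      obtain ⟨h1, h2⟩ := heq
      have h2' : g = g' := eq_of_heq h2
      subst h2'
      have : f = f' := by
        funext j
        have := congrFun h1 j
        exact sub_left_injective this
      rw [this]
  have h2 : (((sysZ ι e H).filter (fun f => GoodDS w γ H Q N c ζ δ f ∧ q f)).card : ℝ) *
      G'.card ≤ (ε * (sysZ ι e (2 * H)).card) * G'.card := by
    have h3 := (Nat.cast_le (α := ℝ)).mpr h1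
    push_cast at h3
    refine h3.trans ?_
    calc _ ≤ ((sysZ ι e (2 * H)).filter
            (fun f => ClassDS e w γ η H Q N c ζ δ f)).card • (ε * (G'.card : ℝ)) :=
          Finset.sum_le_card_nsmul _ _ _ (fun f hf => hcl f (Finset.mem_filter.mp hf).2)
      _ = (((sysZ ι e (2 * H)).filter
            (fun f => ClassDS e w γ η H Q N c ζ δ f)).card : ℝ) * (ε * (G'.card : ℝ)) := by
          rw [nsmul_eq_mul]
      _ ≤ ((sysZ ι e (2 * H)).card : ℝ) * (ε * (G'.card : ℝ)) := by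
          apply mul_le_mul_of_nonneg_right _ (by positivity)
          exact_mod_cast Finset.card_filter_le _ _
      _ = _ := by ring
  exact le_of_mul_le_mul_right h2 hG0

end Pool.Agent.Y363.C7
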